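import Mathlib
import Pool.Agent.TH165.ACC.NFin

/-!
# ACC for minimal log discrepancies of toric germs with nondegenerate boundaries

`ToricGerm n K`: an affine toric variety of dimension `n` with function field `K` and with a fixed
point `P`, given by any strictly convex rational cone of dimension `n`. The boundary `B` is an
effective `ℝ`-divisor on it, not necessarily invariant under the torus, and `K_X + B` is
`ℝ`-Cartier at `P`, with the local equation `e`. The minimal log discrepancy is taken over all prime
divisors over the germ.
-/

set_option autoImplicit false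

namespace Pool.Agent.Results.MP_df5e61_ag.ToricGermsACC

open Pool.Agent.TH165.ACC Pool.Agent.W497.Mld Pool.Agent.H436R3.KT

/-- For every `n` and every DCC set `Γ`, the minimal log discrepancies `m = mld (X ∋ P, B) ≥ 0` of
the toric germs `X ∋ P` of dimension `n`, with boundaries `B` with coefficients in `Γ` which are
nondegenerate at `P`, or such that `m` is the log discrepancy of a monomial valuation, form an
ACC set. -/
theorem result (n : ℕ) (Γ : Set ℝ) (hΓ : Pool.Agent.TH165.ACC.IsDCC Γ) :
    IsACC {m : ℝ | 0 ≤ m ∧ ∃ (g : ToricGerm n (FractionRing (MvPolynomial (Fin n) ℂ)))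
      (B : EffDiv g.X) (e : LocEq B g.P), CoeffIn B Γ ∧ Pool.Agent.W497.Mld.IsMld e m ∧
        (Computed e m ∨ NondegBoundary g B)} :=
  geo_acc' hΓ

end Pool.Agent.Results.MP_df5e61_ag.ToricGermsACC
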